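import Pool.Agent.H37.CTN.Stmts

/-!
# Row N48 of the board `ctn`: the decomposition of `Z ^ q - Z`
-/

set_option autoImplicit false

namespace Pool.CND

open Finset Polynomial

theorem n48_sum {L : Type} [Field L] {r m : ℕ} (f : Fin (r + m + 1) → L)
    (h : ∀ i : Fin (r + m + 1), i.val ≤ r → f i = 0) :
    ∑ j : Fin m, f (topi r j) = ∑ i, f i := by
  refine Finset.sum_of_injOn (topi r) ?_ ?_ ?_ ?_
  · intro a _ b _ hab
    have h1 := congrArg Fin.val hab
    simp only [topi] at h1
    exact Fin.ext (by omega)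
  · intro a _
    exact Finset.mem_coe.2 (Finset.mem_univ _)
  · intro i _ hi
    apply h
    by_contra hlt
    rw [not_le] at hlt
    apply hi
    have hi2 := i.isLt
    refine ⟨⟨i.val - (r + 1), by omega⟩, Finset.mem_coe.2 (Finset.mem_univ _), ?_⟩
    apply Fin.ext
    simp only [topi]
    omega
  · intro a _
    rfl

theorem n48_ord_one {k L : Type} [Field k] [Field L] [Algebra k L] (P : Place k L) :
    P.ord 1 = 0 := by
  have h := P.ord_const 1 one_ne_zero
  rwa [map_one] at h

theorem n48_ord_pow {k L : Type} [Field k] [Field L] [Algebra k L] (P : Place k L) {x : L}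
    (hx : x ≠ 0) (n : ℕ) : P.ord (x ^ n) = n * P.ord x := by
  induction n with
  | zero => simp [n48_ord_one]
  | succ n ih =>
    rw [pow_succ, P.ord_mul _ _ (pow_ne_zero n hx) hx, ih]
    push_cast
    ring

theorem n48_ord_div {k L : Type} [Field k] [Field L] [Algebra k L] (P : Place k L) {x y : L}
    (hx : x ≠ 0) (hy : y ≠ 0) : P.ord (x / y) = P.ord x - P.ord y := by
  have h := P.ord_mul (x / y) y (div_ne_zero hx hy) hy
  rw [div_mul_cancel₀ x hy] at h
  linarith

theorem n48_thm (h1 : S_N44) (h2 : S_N45) (h3 : S_N46) (h4 : S_N42) : S_N48 := by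
  intro p k F L _ _ _ _ _ _ _ f q r m κ t X G₀ ρ α R P hp hk hf hq hF hm hκ hX hC hO hA a ha
  have hMo := (h1 p k F L f q r m κ t X P hp hk hf hq hF hm hX hO).1
  obtain ⟨hR, hδ, -⟩ := h3 p k F L f q r m κ t X α R P hp hk hf hq hF hm hκ hX hO hA
  have hinv := fun (w : G₀) (hw : w ∈ ram P ρ 1) =>
    h4 p k F L f q r m κ t X G₀ ρ P hp hk hf hq hF hm hX hC hO w hw
  have : Fact p.Prime := ⟨hp⟩
  have hL : CharP L p := charP_of_injective_algebraMap (algebraMap k L).injective p
  have hadd : ∀ x y : L, (x + y) ^ q = x ^ q + y ^ q := fun x y => by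
    rw [hq]; exact add_pow_char_pow x y p f
  have hpow : ∀ c : F, c ^ q = c := by
    intro c
    rw [← hF, Nat.card_eq_fintype_card]
    exact FiniteField.pow_card c
  have hcst : ∀ c : F, cst k F L c ^ q = cst k F L c := fun c => by
    simp only [cst]
    rw [← map_pow, ← map_pow, hpow]
  have hq0 : q ≠ 0 := by
    rw [hq]; exact (pow_pos hp.pos f).ne'
  have hzero : (0 : L) ^ q = 0 := zero_pow hq0
  -- the combination
  set u : L := ∑ i, cst k F L (a i) * X (topi r i) with hu
  set c : Fin (r + m + 1) → F := fun i =>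
    if h : r < i.val then a ⟨i.val - (r + 1), by have := i.isLt; omega⟩ else 0 with hc
  have hctop : ∀ j : Fin m, c (topi r j) = a j := by
    intro j
    have e1 : r < (topi r j : Fin (r + m + 1)).val := by
      simp only [topi]; omega
    rw [hc]
    simp only
    rw [dif_pos e1]
    congr 1
    apply Fin.ext
    simp only [topi]
    omega
  have hcu : ∑ i, cst k F L (c i) * X i = u := by
    rw [hu, ← n48_sum (fun i => cst k F L (c i) * X i)]
    · exact Finset.sum_congr rfl fun j _ => by rw [hctop]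
    · intro i hi
      have : c i = 0 := by
        rw [hc]
        simp only
        rw [dif_neg (by omega)]
      rw [this]
      simp [cst]
  have hcne : ∃ i, r < i.val ∧ c i ≠ 0 := by
    by_contra hcon
    push Not at hcon
    apply ha
    funext j
    have e1 : r < (topi r j : Fin (r + m + 1)).val := by
      simp only [topi]; omega
    have := hcon (topi r j) e1
    rw [hctop] at this
    simpa using this
  obtain ⟨hRu0, hRu⟩ := hR c hcne
  rw [hcu] at hRu0 hRu
  -- the left-hand side
  have hα : ∀ s : Finset (Fin m), α 0 (∑ i ∈ s, cst k F L (a i) * X (topi r i)) =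
      ∑ i ∈ s, cst k F L (a i) * α 0 (X (topi r i)) := by
    intro s
    classical
    induction s using Finset.induction_on with
    | empty =>
      rw [Finset.sum_empty, Finset.sum_empty]
      have := hA.add 0 0 0
      rw [add_zero] at this
      exact left_eq_add.1 this
    | insert i s hi ih =>
      rw [Finset.sum_insert hi, Finset.sum_insert hi, hA.add, hA.smul, ih]
  have hpw : ∀ s : Finset (Fin m), (∑ i ∈ s, cst k F L (a i) * α 0 (X (topi r i))) ^ q =
      ∑ i ∈ s, cst k F L (a i) * α 0 (X (topi r i)) ^ q := by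
    intro s
    classical
    induction s using Finset.induction_on with
    | empty => rw [Finset.sum_empty, Finset.sum_empty, hzero]
    | insert i s hi ih =>
      rw [Finset.sum_insert hi, Finset.sum_insert hi, hadd, ih, mul_pow, hcst]
  have hlhs : ∑ i, cst k F L (a i) * (α 0 (X (topi r i)) ^ q - α 0 (X (topi r i))) =
      α 0 u ^ q - α 0 u := by
    rw [hu, hα, hpw, ← Finset.sum_sub_distrib]
    exact Finset.sum_congr rfl fun i _ => by ring
  have hart := hA.art u 0
  set M0 : L := Mo q r (lowX X ∘ (0 : Fin (r + 1)).succAbove) with hM0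
  set Mm : L := Mo q (r + 1) (lowX X) with hMm
  have hMm0 : Mm ≠ 0 := hA.mo
  obtain ⟨δ, hδ0, hδ1⟩ := hδ
  have hMq : Mm ^ q ≠ 0 := pow_ne_zero q hMm0
  have hdL : algebraMap k L δ ≠ 0 := (map_ne_zero (algebraMap k L)).2 hδ0
  have hk0 : (-1 : k) ^ r * δ ^ q ≠ 0 :=
    mul_ne_zero (pow_ne_zero r (neg_ne_zero.2 one_ne_zero)) (pow_ne_zero q hδ0)
  have hord0 : P.ord (algebraMap k L ((-1) ^ r * δ ^ q) * (R u / Mm ^ q)) =
      P.ord (R u) - q * P.ord (X 0) := by
    rw [P.ord_mul _ _ ((map_ne_zero (algebraMap k L)).2 hk0) (div_ne_zero hRu0 hMq),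
      P.ord_const _ hk0, n48_ord_div P hRu0 hMq, n48_ord_pow P hMm0, hMo]
    ring
  refine ⟨algebraMap k L ((-1) ^ r * δ ^ q) * (R u / Mm ^ q),
    algebraMap k L ((-1) ^ r) * (R u * (M0 - algebraMap k L δ) ^ q / Mm ^ q), ?_, ?_, ?_, hord0,
    hRu, ?_, ?_⟩
  · rw [hlhs, hart]
    have e1 : M0 ^ q = algebraMap k L δ ^ q + (M0 - algebraMap k L δ) ^ q := by
      rw [← hadd]
      congr 1
      ring
    rw [div_pow, e1]
    simp only [map_mul, map_pow, map_neg, map_one, Fin.val_zero, add_zero]
    field_simp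
  · exact mul_ne_zero ((map_ne_zero (algebraMap k L)).2 hk0) (div_ne_zero hRu0 hMq)
  · intro w hw
    obtain ⟨w1, w2, w3⟩ := hinv w hw
    obtain ⟨-, -, w4, w5⟩ := h2 p k F L f q r m κ t X G₀ ρ α R w hp hk hf hq hF hm hX hC hA w1 w2 w3
    have w6 := w4 c
    rw [hcu] at w6
    rw [map_mul, AlgEquiv.commutes, map_div₀, map_pow, w6, w5]
  · intro w hw
    obtain ⟨w1, w2, w3⟩ := hinv w hw
    obtain ⟨-, -, w4, -⟩ := h2 p k F L f q r m κ t X G₀ ρ α R w hp hk hf hq hF hm hX hC hA w1 w2 w3
    have w6 := w4 c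
    rw [hcu] at w6
    exact w6
  · by_cases hz : M0 - algebraMap k L δ = 0
    · left
      rw [hz, hzero]
      simp
    · right
      have h5 : -P.ord t ≤ (q : ℤ) * P.ord (M0 - algebraMap k L δ) := by
        rcases hδ1 with h | h
        · exact absurd (sub_eq_zero.2 h) hz
        · exact h
      have e1 : (-1 : k) ^ r ≠ 0 := pow_ne_zero r (neg_ne_zero.2 one_ne_zero)
      have e2 : R u * (M0 - algebraMap k L δ) ^ q ≠ 0 := mul_ne_zero hRu0 (pow_ne_zero q hz)
      rw [hord0, P.ord_mul _ _ ((map_ne_zero (algebraMap k L)).2 e1) (div_ne_zero e2 hMq),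
        P.ord_const _ e1, n48_ord_div P e2 hMq, P.ord_mul _ _ hRu0 (pow_ne_zero q hz),
        n48_ord_pow P hz, n48_ord_pow P hMm0, hMo]
      linarith

end Pool.CND
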